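import Pool.Agent.helper73.TC.Data.PaNK
/-! Kernel checks: the nonfaces describe the complex. -/
set_option autoImplicit false
set_option maxRecDepth 100000
noncomputable section
namespace Pool.Agent.helper73.TC.Pa
theorem t1_sep : chkSep NK Fl.K20 = true := by decide +kernel
theorem t1_ok : allL (fun m => Bool.and (Nat.blt m 1048576) (Nat.blt 0 (Nat.land m (Nat.pred m)))) NK = true := by decide +kernel
theorem t1_J : allL (fun m => memL (anti m) Fl.K20) Fl.K20 = true := by decide +kernel
theorem t1_lt : allL (fun m => Nat.blt m 1048576) Fl.K20 = true := by decide +kernel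
theorem t1_gen : chkGen NK 20 0 Fl.K20 = true := by decide +kernel
end Pool.Agent.helper73.TC.Pa
end
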