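import Pool.Agent.helper73.TC.Data.PaNK
/-! Kernel checks: vertex links and edge links. -/
set_option autoImplicit false
set_option maxRecDepth 100000
noncomputable section
namespace Pool.Agent.helper73.TC.Pa
theorem t2_0 : chkE NK nv0 0 = true := by decide +kernel
theorem t2_1 : chkE NK nv2 2 = true := by decide +kernel
theorem t2_2 : chkE NK nv4 4 = true := by decide +kernel
theorem t2_3 : chkE NK nv6 6 = true := by decide +kernel
theorem t2_4 : chkE NK nv8 8 = true := by decide +kernel
theorem t2_5 : chkE NK nv10 10 = true := by decide +kernel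
theorem t2_6 : chkE NK nv12 12 = true := by decide +kernel
theorem t2_7 : chkE NK nv14 14 = true := by decide +kernel
theorem t2_8 : chkE NK nv16 16 = true := by decide +kernel
theorem t2_9 : chkE NK nv18 18 = true := by decide +kernel
theorem t3_0 : allL (fun c => chkE nv0 (getL ne0 c) c) [2, 3, 4, 5, 6, 7, 8, 9, 10, 11, 12, 13, 14, 15, 16, 17, 18, 19] = true := by decide +kernel
theorem t3_1 : allL (fun c => chkE nv2 (getL ne2 c) c) [4, 5, 6, 7, 8, 9, 10, 11, 12, 13, 14, 15, 16, 17, 18, 19] = true := by decide +kernel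
theorem t3_2 : allL (fun c => chkE nv4 (getL ne4 c) c) [6, 7, 8, 9, 10, 11, 12, 13, 14, 15, 16, 17, 18, 19] = true := by decide +kernel
theorem t3_3 : allL (fun c => chkE nv6 (getL ne6 c) c) [8, 9, 10, 11, 12, 13, 14, 15, 16, 17, 18, 19] = true := by decide +kernel
theorem t3_4 : allL (fun c => chkE nv8 (getL ne8 c) c) [10, 11, 12, 13, 14, 15, 16, 17, 18, 19] = true := by decide +kernel
theorem t3_5 : allL (fun c => chkE nv10 (getL ne10 c) c) [12, 13, 14, 15, 16, 17, 18, 19] = true := by decide +kernel
theorem t3_6 : allL (fun c => chkE nv12 (getL ne12 c) c) [14, 15, 16, 17, 18, 19] = true := by decide +kernel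
theorem t3_7 : allL (fun c => chkE nv14 (getL ne14 c) c) [16, 17, 18, 19] = true := by decide +kernel
theorem t3_8 : allL (fun c => chkE nv16 (getL ne16 c) c) [18, 19] = true := by decide +kernel
theorem t3_9 : allL (fun c => chkE nv18 (getL ne18 c) c) [] = true := by decide +kernel
end Pool.Agent.helper73.TC.Pa
end
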