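import Pool.Agent.helper73.TC.Data.CeAll
/-! Kernel checks of four cells. -/
set_option autoImplicit false
namespace Pool.Agent.helper73.TC.Ce
theorem chkCell_0 : chkCell tab cell0 0 = true := by decide +kernel
theorem chkNei_0 : chkNei tab cell0 [cell16, cell32, cell48, cell4, cell8, cell12, cell1, cell2, cell3] cell0 cell0 2 1 = true := by decide +kernel
theorem chkCell_1 : chkCell tab cell1 1 = true := by decide +kernel
theorem chkNei_1 : chkNei tab cell1 [cell17, cell33, cell49, cell5, cell9, cell13, cell0, cell2, cell3] cell1 cell4 2 1 = true := by decide +kernel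
theorem chkCell_2 : chkCell tab cell2 2 = true := by decide +kernel
theorem chkNei_2 : chkNei tab cell2 [cell18, cell34, cell50, cell6, cell10, cell14, cell0, cell1, cell3] cell2 cell8 2 1 = true := by decide +kernel
theorem chkCell_3 : chkCell tab cell3 3 = true := by decide +kernel
theorem chkNei_3 : chkNei tab cell3 [cell19, cell35, cell51, cell7, cell11, cell15, cell0, cell1, cell2] cell3 cell12 2 1 = true := by decide +kernel
end Pool.Agent.helper73.TC.Ce
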