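import Pool.Agent.helper73.TC.Data.CeAll
/-! Kernel checks of four cells. -/
set_option autoImplicit false
namespace Pool.Agent.helper73.TC.Ce
theorem chkCell_4 : chkCell tab cell4 4 = true := by decide +kernel
theorem chkNei_4 : chkNei tab cell4 [cell20, cell36, cell52, cell0, cell8, cell12, cell5, cell6, cell7] cell16 cell1 2 1 = true := by decide +kernel
theorem chkCell_5 : chkCell tab cell5 5 = true := by decide +kernel
theorem chkNei_5 : chkNei tab cell5 [cell21, cell37, cell53, cell1, cell9, cell13, cell4, cell6, cell7] cell17 cell5 2 1 = true := by decide +kernel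
theorem chkCell_6 : chkCell tab cell6 6 = true := by decide +kernel
theorem chkNei_6 : chkNei tab cell6 [cell22, cell38, cell54, cell2, cell10, cell14, cell4, cell5, cell7] cell18 cell9 2 1 = true := by decide +kernel
theorem chkCell_7 : chkCell tab cell7 7 = true := by decide +kernel
theorem chkNei_7 : chkNei tab cell7 [cell23, cell39, cell55, cell3, cell11, cell15, cell4, cell5, cell6] cell19 cell13 2 1 = true := by decide +kernel
end Pool.Agent.helper73.TC.Ce
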