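import Pool.Agent.helper73.TC.Data.CeAll
/-! Kernel checks of four cells. -/
set_option autoImplicit false
namespace Pool.Agent.helper73.TC.Ce
theorem chkCell_8 : chkCell tab cell8 8 = true := by decide +kernel
theorem chkNei_8 : chkNei tab cell8 [cell24, cell40, cell56, cell0, cell4, cell12, cell9, cell10, cell11] cell32 cell2 2 1 = true := by decide +kernel
theorem chkCell_9 : chkCell tab cell9 9 = true := by decide +kernel
theorem chkNei_9 : chkNei tab cell9 [cell25, cell41, cell57, cell1, cell5, cell13, cell8, cell10, cell11] cell33 cell6 2 1 = true := by decide +kernel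
theorem chkCell_10 : chkCell tab cell10 10 = true := by decide +kernel
theorem chkNei_10 : chkNei tab cell10 [cell26, cell42, cell58, cell2, cell6, cell14, cell8, cell9, cell11] cell34 cell10 2 1 = true := by decide +kernel
theorem chkCell_11 : chkCell tab cell11 11 = true := by decide +kernel
theorem chkNei_11 : chkNei tab cell11 [cell27, cell43, cell59, cell3, cell7, cell15, cell8, cell9, cell10] cell35 cell14 2 1 = true := by decide +kernel
end Pool.Agent.helper73.TC.Ce
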