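import Pool.Agent.helper73.TC.Data.CeAll
/-! Kernel checks of four cells. -/
set_option autoImplicit false
namespace Pool.Agent.helper73.TC.Ce
theorem chkCell_12 : chkCell tab cell12 12 = true := by decide +kernel
theorem chkNei_12 : chkNei tab cell12 [cell28, cell44, cell60, cell0, cell4, cell8, cell13, cell14, cell15] cell48 cell3 2 1 = true := by decide +kernel
theorem chkCell_13 : chkCell tab cell13 13 = true := by decide +kernel
theorem chkNei_13 : chkNei tab cell13 [cell29, cell45, cell61, cell1, cell5, cell9, cell12, cell14, cell15] cell49 cell7 2 1 = true := by decide +kernel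
theorem chkCell_14 : chkCell tab cell14 14 = true := by decide +kernel
theorem chkNei_14 : chkNei tab cell14 [cell30, cell46, cell62, cell2, cell6, cell10, cell12, cell13, cell15] cell50 cell11 2 1 = true := by decide +kernel
theorem chkCell_15 : chkCell tab cell15 15 = true := by decide +kernel
theorem chkNei_15 : chkNei tab cell15 [cell31, cell47, cell63, cell3, cell7, cell11, cell12, cell13, cell14] cell51 cell15 2 1 = true := by decide +kernel
end Pool.Agent.helper73.TC.Ce
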