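import Pool.Agent.helper73.TC.Data.CeAll
/-! Kernel checks of four cells. -/
set_option autoImplicit false
namespace Pool.Agent.helper73.TC.Ce
theorem chkCell_16 : chkCell tab cell16 16 = true := by decide +kernel
theorem chkNei_16 : chkNei tab cell16 [cell0, cell32, cell48, cell20, cell24, cell28, cell17, cell18, cell19] cell4 cell16 2 1 = true := by decide +kernel
theorem chkCell_17 : chkCell tab cell17 17 = true := by decide +kernel
theorem chkNei_17 : chkNei tab cell17 [cell1, cell33, cell49, cell21, cell25, cell29, cell16, cell18, cell19] cell5 cell20 2 1 = true := by decide +kernel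
theorem chkCell_18 : chkCell tab cell18 18 = true := by decide +kernel
theorem chkNei_18 : chkNei tab cell18 [cell2, cell34, cell50, cell22, cell26, cell30, cell16, cell17, cell19] cell6 cell24 2 1 = true := by decide +kernel
theorem chkCell_19 : chkCell tab cell19 19 = true := by decide +kernel
theorem chkNei_19 : chkNei tab cell19 [cell3, cell35, cell51, cell23, cell27, cell31, cell16, cell17, cell18] cell7 cell28 2 1 = true := by decide +kernel
end Pool.Agent.helper73.TC.Ce
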