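import Pool.Agent.helper73.TC.Data.CeAll
/-! Kernel checks of four cells. -/
set_option autoImplicit false
namespace Pool.Agent.helper73.TC.Ce
theorem chkCell_20 : chkCell tab cell20 20 = true := by decide +kernel
theorem chkNei_20 : chkNei tab cell20 [cell4, cell36, cell52, cell16, cell24, cell28, cell21, cell22, cell23] cell20 cell17 2 1 = true := by decide +kernel
theorem chkCell_21 : chkCell tab cell21 21 = true := by decide +kernel
theorem chkNei_21 : chkNei tab cell21 [cell5, cell37, cell53, cell17, cell25, cell29, cell20, cell22, cell23] cell21 cell21 2 1 = true := by decide +kernel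
theorem chkCell_22 : chkCell tab cell22 22 = true := by decide +kernel
theorem chkNei_22 : chkNei tab cell22 [cell6, cell38, cell54, cell18, cell26, cell30, cell20, cell21, cell23] cell22 cell25 2 1 = true := by decide +kernel
theorem chkCell_23 : chkCell tab cell23 23 = true := by decide +kernel
theorem chkNei_23 : chkNei tab cell23 [cell7, cell39, cell55, cell19, cell27, cell31, cell20, cell21, cell22] cell23 cell29 2 1 = true := by decide +kernel
end Pool.Agent.helper73.TC.Ce
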