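import Pool.Agent.helper73.TC.Data.CeAll
/-! Kernel checks of four cells. -/
set_option autoImplicit false
namespace Pool.Agent.helper73.TC.Ce
theorem chkCell_24 : chkCell tab cell24 24 = true := by decide +kernel
theorem chkNei_24 : chkNei tab cell24 [cell8, cell40, cell56, cell16, cell20, cell28, cell25, cell26, cell27] cell36 cell18 2 1 = true := by decide +kernel
theorem chkCell_25 : chkCell tab cell25 25 = true := by decide +kernel
theorem chkNei_25 : chkNei tab cell25 [cell9, cell41, cell57, cell17, cell21, cell29, cell24, cell26, cell27] cell37 cell22 2 1 = true := by decide +kernel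
theorem chkCell_26 : chkCell tab cell26 26 = true := by decide +kernel
theorem chkNei_26 : chkNei tab cell26 [cell10, cell42, cell58, cell18, cell22, cell30, cell24, cell25, cell27] cell38 cell26 2 1 = true := by decide +kernel
theorem chkCell_27 : chkCell tab cell27 27 = true := by decide +kernel
theorem chkNei_27 : chkNei tab cell27 [cell11, cell43, cell59, cell19, cell23, cell31, cell24, cell25, cell26] cell39 cell30 2 1 = true := by decide +kernel
end Pool.Agent.helper73.TC.Ce
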