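import Pool.Agent.helper73.TC.Data.CeAll
/-! Kernel checks of four cells. -/
set_option autoImplicit false
namespace Pool.Agent.helper73.TC.Ce
theorem chkCell_28 : chkCell tab cell28 28 = true := by decide +kernel
theorem chkNei_28 : chkNei tab cell28 [cell12, cell44, cell60, cell16, cell20, cell24, cell29, cell30, cell31] cell52 cell19 2 1 = true := by decide +kernel
theorem chkCell_29 : chkCell tab cell29 29 = true := by decide +kernel
theorem chkNei_29 : chkNei tab cell29 [cell13, cell45, cell61, cell17, cell21, cell25, cell28, cell30, cell31] cell53 cell23 2 1 = true := by decide +kernel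
theorem chkCell_30 : chkCell tab cell30 30 = true := by decide +kernel
theorem chkNei_30 : chkNei tab cell30 [cell14, cell46, cell62, cell18, cell22, cell26, cell28, cell29, cell31] cell54 cell27 2 1 = true := by decide +kernel
theorem chkCell_31 : chkCell tab cell31 31 = true := by decide +kernel
theorem chkNei_31 : chkNei tab cell31 [cell15, cell47, cell63, cell19, cell23, cell27, cell28, cell29, cell30] cell55 cell31 2 1 = true := by decide +kernel
end Pool.Agent.helper73.TC.Ce
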