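import Pool.Agent.helper73.TC.Data.CeAll
/-! Kernel checks of four cells. -/
set_option autoImplicit false
namespace Pool.Agent.helper73.TC.Ce
theorem chkCell_32 : chkCell tab cell32 32 = true := by decide +kernel
theorem chkNei_32 : chkNei tab cell32 [cell0, cell16, cell48, cell36, cell40, cell44, cell33, cell34, cell35] cell8 cell32 2 1 = true := by decide +kernel
theorem chkCell_33 : chkCell tab cell33 33 = true := by decide +kernel
theorem chkNei_33 : chkNei tab cell33 [cell1, cell17, cell49, cell37, cell41, cell45, cell32, cell34, cell35] cell9 cell36 2 1 = true := by decide +kernel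
theorem chkCell_34 : chkCell tab cell34 34 = true := by decide +kernel
theorem chkNei_34 : chkNei tab cell34 [cell2, cell18, cell50, cell38, cell42, cell46, cell32, cell33, cell35] cell10 cell40 2 1 = true := by decide +kernel
theorem chkCell_35 : chkCell tab cell35 35 = true := by decide +kernel
theorem chkNei_35 : chkNei tab cell35 [cell3, cell19, cell51, cell39, cell43, cell47, cell32, cell33, cell34] cell11 cell44 2 1 = true := by decide +kernel
end Pool.Agent.helper73.TC.Ce
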