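import Pool.Agent.helper73.TC.Data.CeAll
/-! Kernel checks of four cells. -/
set_option autoImplicit false
namespace Pool.Agent.helper73.TC.Ce
theorem chkCell_36 : chkCell tab cell36 36 = true := by decide +kernel
theorem chkNei_36 : chkNei tab cell36 [cell4, cell20, cell52, cell32, cell40, cell44, cell37, cell38, cell39] cell24 cell33 2 1 = true := by decide +kernel
theorem chkCell_37 : chkCell tab cell37 37 = true := by decide +kernel
theorem chkNei_37 : chkNei tab cell37 [cell5, cell21, cell53, cell33, cell41, cell45, cell36, cell38, cell39] cell25 cell37 2 1 = true := by decide +kernel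
theorem chkCell_38 : chkCell tab cell38 38 = true := by decide +kernel
theorem chkNei_38 : chkNei tab cell38 [cell6, cell22, cell54, cell34, cell42, cell46, cell36, cell37, cell39] cell26 cell41 2 1 = true := by decide +kernel
theorem chkCell_39 : chkCell tab cell39 39 = true := by decide +kernel
theorem chkNei_39 : chkNei tab cell39 [cell7, cell23, cell55, cell35, cell43, cell47, cell36, cell37, cell38] cell27 cell45 2 1 = true := by decide +kernel
end Pool.Agent.helper73.TC.Ce
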