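import Pool.Agent.helper73.TC.Data.CeAll
/-! Kernel checks of four cells. -/
set_option autoImplicit false
namespace Pool.Agent.helper73.TC.Ce
theorem chkCell_44 : chkCell tab cell44 44 = true := by decide +kernel
theorem chkNei_44 : chkNei tab cell44 [cell12, cell28, cell60, cell32, cell36, cell40, cell45, cell46, cell47] cell56 cell35 2 1 = true := by decide +kernel
theorem chkCell_45 : chkCell tab cell45 45 = true := by decide +kernel
theorem chkNei_45 : chkNei tab cell45 [cell13, cell29, cell61, cell33, cell37, cell41, cell44, cell46, cell47] cell57 cell39 2 1 = true := by decide +kernel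
theorem chkCell_46 : chkCell tab cell46 46 = true := by decide +kernel
theorem chkNei_46 : chkNei tab cell46 [cell14, cell30, cell62, cell34, cell38, cell42, cell44, cell45, cell47] cell58 cell43 2 1 = true := by decide +kernel
theorem chkCell_47 : chkCell tab cell47 47 = true := by decide +kernel
theorem chkNei_47 : chkNei tab cell47 [cell15, cell31, cell63, cell35, cell39, cell43, cell44, cell45, cell46] cell59 cell47 2 1 = true := by decide +kernel
end Pool.Agent.helper73.TC.Ce
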