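import Pool.Agent.helper73.TC.Data.CeAll
/-! Kernel checks of four cells. -/
set_option autoImplicit false
namespace Pool.Agent.helper73.TC.Ce
theorem chkCell_48 : chkCell tab cell48 48 = true := by decide +kernel
theorem chkNei_48 : chkNei tab cell48 [cell0, cell16, cell32, cell52, cell56, cell60, cell49, cell50, cell51] cell12 cell48 2 1 = true := by decide +kernel
theorem chkCell_49 : chkCell tab cell49 49 = true := by decide +kernel
theorem chkNei_49 : chkNei tab cell49 [cell1, cell17, cell33, cell53, cell57, cell61, cell48, cell50, cell51] cell13 cell52 2 1 = true := by decide +kernel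
theorem chkCell_50 : chkCell tab cell50 50 = true := by decide +kernel
theorem chkNei_50 : chkNei tab cell50 [cell2, cell18, cell34, cell54, cell58, cell62, cell48, cell49, cell51] cell14 cell56 2 1 = true := by decide +kernel
theorem chkCell_51 : chkCell tab cell51 51 = true := by decide +kernel
theorem chkNei_51 : chkNei tab cell51 [cell3, cell19, cell35, cell55, cell59, cell63, cell48, cell49, cell50] cell15 cell60 2 1 = true := by decide +kernel
end Pool.Agent.helper73.TC.Ce
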