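import Pool.Agent.helper73.TC.Data.CeAll
/-! Kernel checks of four cells. -/
set_option autoImplicit false
namespace Pool.Agent.helper73.TC.Ce
theorem chkCell_52 : chkCell tab cell52 52 = true := by decide +kernel
theorem chkNei_52 : chkNei tab cell52 [cell4, cell20, cell36, cell48, cell56, cell60, cell53, cell54, cell55] cell28 cell49 2 1 = true := by decide +kernel
theorem chkCell_53 : chkCell tab cell53 53 = true := by decide +kernel
theorem chkNei_53 : chkNei tab cell53 [cell5, cell21, cell37, cell49, cell57, cell61, cell52, cell54, cell55] cell29 cell53 2 1 = true := by decide +kernel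
theorem chkCell_54 : chkCell tab cell54 54 = true := by decide +kernel
theorem chkNei_54 : chkNei tab cell54 [cell6, cell22, cell38, cell50, cell58, cell62, cell52, cell53, cell55] cell30 cell57 2 1 = true := by decide +kernel
theorem chkCell_55 : chkCell tab cell55 55 = true := by decide +kernel
theorem chkNei_55 : chkNei tab cell55 [cell7, cell23, cell39, cell51, cell59, cell63, cell52, cell53, cell54] cell31 cell61 2 1 = true := by decide +kernel
end Pool.Agent.helper73.TC.Ce
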