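import Pool.Agent.helper73.TC.Data.CeAll
/-! Kernel checks of four cells. -/
set_option autoImplicit false
namespace Pool.Agent.helper73.TC.Ce
theorem chkCell_56 : chkCell tab cell56 56 = true := by decide +kernel
theorem chkNei_56 : chkNei tab cell56 [cell8, cell24, cell40, cell48, cell52, cell60, cell57, cell58, cell59] cell44 cell50 2 1 = true := by decide +kernel
theorem chkCell_57 : chkCell tab cell57 57 = true := by decide +kernel
theorem chkNei_57 : chkNei tab cell57 [cell9, cell25, cell41, cell49, cell53, cell61, cell56, cell58, cell59] cell45 cell54 2 1 = true := by decide +kernel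
theorem chkCell_58 : chkCell tab cell58 58 = true := by decide +kernel
theorem chkNei_58 : chkNei tab cell58 [cell10, cell26, cell42, cell50, cell54, cell62, cell56, cell57, cell59] cell46 cell58 2 1 = true := by decide +kernel
theorem chkCell_59 : chkCell tab cell59 59 = true := by decide +kernel
theorem chkNei_59 : chkNei tab cell59 [cell11, cell27, cell43, cell51, cell55, cell63, cell56, cell57, cell58] cell47 cell62 2 1 = true := by decide +kernel
end Pool.Agent.helper73.TC.Ce
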