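import Pool.Agent.helper73.TC.Data.CeAll
/-! Kernel checks of four cells. -/
set_option autoImplicit false
namespace Pool.Agent.helper73.TC.Ce
theorem chkCell_60 : chkCell tab cell60 60 = true := by decide +kernel
theorem chkNei_60 : chkNei tab cell60 [cell12, cell28, cell44, cell48, cell52, cell56, cell61, cell62, cell63] cell60 cell51 2 1 = true := by decide +kernel
theorem chkCell_61 : chkCell tab cell61 61 = true := by decide +kernel
theorem chkNei_61 : chkNei tab cell61 [cell13, cell29, cell45, cell49, cell53, cell57, cell60, cell62, cell63] cell61 cell55 2 1 = true := by decide +kernel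
theorem chkCell_62 : chkCell tab cell62 62 = true := by decide +kernel
theorem chkNei_62 : chkNei tab cell62 [cell14, cell30, cell46, cell50, cell54, cell58, cell60, cell61, cell63] cell62 cell59 2 1 = true := by decide +kernel
theorem chkCell_63 : chkCell tab cell63 63 = true := by decide +kernel
theorem chkNei_63 : chkNei tab cell63 [cell15, cell31, cell47, cell51, cell55, cell59, cell60, cell61, cell62] cell63 cell63 2 1 = true := by decide +kernel
end Pool.Agent.helper73.TC.Ce
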