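import Pool.Agent.helper73.TC.Data.FlLst0
/-! Kernel check of a part of the flip path. -/
set_option autoImplicit false
set_option maxRecDepth 100000
noncomputable section
namespace Pool.Agent.helper73.TC.Fl
def mvs0 : List (Nat × Nat) := [(5265, 38), (1169, 65574), (145, 69670), (655371, 262912), (655370, 328448), (655368, 328449),
 (525323, 4194832), (525322, 4194836), (660608, 311296), (659584, 376832), (360453, 131456), (659456, 377856),
 (360452, 655744), (330768, 155648), (330752, 679936), (329728, 679952), (205826, 2096), (140290, 2097),
 (184832, 67175424), (68625, 1056770), (67601, 1060866), (168448, 67437568), (141348, 67109889), (397824, 67175488),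
 (141316, 67110017), (133252, 67126273), (5281, 16390), (630786, 16480), (67597, 8352), (565250, 16481),
 (40962, 82017), (67589, 9376), (67588, 9384), (272768, 1573888), (71689, 16785472), (200713, 16704),
 (272512, 1704960), (395392, 1590272), (16844809, 8384), (135177, 17728), (135176, 83264), (67593, 8416),
 (71688, 16786496), (525968, 352), (16842889, 8512), (16848897, 1056832), (524944, 65888), (67624, 9408),
 (656, 66912), (67592, 16786624), (16842888, 9536), (71681, 1056834), (16842761, 12608), (16842760, 13632),
 (70664, 24896), (69640, 24897), (530441, 33344), (196681, 49408), (528393, 34368), (528392, 36416),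
 (74369, 268), (66177, 524556), (641, 532748), (67681, 8322), (33799, 4176), (33798, 528464),
 (33794, 528465), (67617, 9346), (68609, 1056898), (229448, 16656), (4719622, 4624), (4719618, 4625),
 (525315, 4688), (525314, 4692), (196680, 17680), (163912, 16657), (131144, 17681), (16849920, 8768),
 (16848896, 1057344), (16847872, 9024), (16845824, 8896), (16843776, 9152), (393227, 4195072), (393226, 4260608),
 (200961, 16452), (67587, 1056960), (7688, 536903744), (1115265, 8198), (6664, 536903745), (38921, 553648192),
 (16847105, 8260), (67585, 17834176), (16843009, 8388), (16844800, 1057472), (16846849, 1056836), (6153, 553656384),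
 (16842753, 1056964), (1115137, 8214), (4257, 81926), (16843136, 8772)]
theorem run0 : run 30 mvs0 lst0 (fun L => eqL L lst1) = true := by decide +kernel
end Pool.Agent.helper73.TC.Fl
end
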