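import Pool.Agent.helper73.TC.Data.FlLst0
/-! Kernel check of a part of the flip path. -/
set_option autoImplicit false
set_option maxRecDepth 100000
noncomputable section
namespace Pool.Agent.helper73.TC.Fl
def mvs1 : List (Nat × Nat) := [(66577, 8230), (1114129, 12294), (1118209, 8262), (197642, 2097424), (66561, 8358), (16842880, 1057348),
 (1114113, 8390), (135425, 17476), (65553, 12326), (16843008, 12868), (132106, 2097425), (16842752, 1061444),
 (38920, 553649216), (6152, 553657408), (69889, 24644), (197640, 2113808), (132104, 2113809), (29704, 262464),
 (28680, 262465), (20488, 263489), (16812041, 536871104), (16779273, 536879296), (16812040, 536872128), (16779272, 536880320),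
 (16811144, 536871232), (16811016, 536875328), (16782344, 536879424), (16814088, 536871233), (16781320, 536879425), (16809992, 536871361),
 (12297, 537133376), (12296, 537134400), (536875529, 294976), (4617, 296000), (4616, 537166912), (536875017, 295232),
 (536875016, 296256), (4104, 296257), (197130, 6291712), (131594, 6291713), (131083, 6291728), (131082, 6357264),
 (525520, 33056), (229400, 4210944), (16778248, 536879552), (16777224, 536879553), (163864, 4210945), (196632, 6308096),
 (131096, 6308097), (2293768, 4211456), (2228232, 4211457), (525712, 268468256), (525456, 268472352), (528528, 268533792),
 (69763, 33570820), (4227, 33571844), (69761, 33701892), (4225, 33702916), (136193, 33570884), (135169, 33636420),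
 (33624065, 16454), (33558529, 17478), (2180104, 8464), (1114308, 8706), (1114180, 12802), (1114304, 10754),
 (1114176, 14850), (82952, 8528), (16810369, 536870980), (16777601, 536879172), (16810241, 536875076), (16777473, 536883268),
 (524496, 98592), (524432, 268534048), (265221, 16672), (269029504, 294944), (2229251, 2320), (132099, 2352),
 (594048, 311328), (265220, 540960), (536908033, 262212), (2229249, 18704), (536875265, 270404), (268963968, 295968),
 (264196, 540961), (269025408, 295200), (2245632, 67856), (528512, 312352), (268959872, 296224), (2229248, 67858),
 (590608, 131168), (132098, 67888), (37121, 263236), (2180096, 10512), (66320, 132192), (12545, 278596),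
 (4353, 279620), (536903945, 262336), (536903944, 263360), (2244625, 4196608)]
theorem run1 : run 30 mvs1 lst1 (fun L => eqL L lst2) = true := by decide +kernel
end Pool.Agent.helper73.TC.Fl
end
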