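import Pool.Agent.helper73.TC.Data.FlLst0
/-! Kernel check of a part of the flip path. -/
set_option autoImplicit false
set_option maxRecDepth 100000
noncomputable section
namespace Pool.Agent.helper73.TC.Fl
def mvs2 : List (Nat × Nat) := [(2244609, 4197120), (2228241, 4196610), (2228225, 4197122), (2228242, 4262144), (2228240, 4278528), (536872200, 270528),
 (536871176, 270529), (536879361, 262340), (536871169, 295108), (16810372, 537395264), (1115268, 8202), (16810368, 537396288),
 (16810244, 537399360), (16810240, 537400384), (1115140, 8218), (1118228, 4202498), (1118224, 4204546), (16811136, 537397312),
 (1118212, 4203010), (1118208, 4205058), (1114132, 4202506), (16811008, 537401408), (5308420, 8714), (1114116, 8842),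
 (1116800, 8450), (2097675, 4718848), (2228226, 4262656), (2097673, 4735232), (2228224, 4279040), (1114752, 8458),
 (1116288, 9474), (1114240, 9482), (2097667, 4720896), (590472, 262), (66768, 296), (345104, 139328),
 (2098187, 262416), (67120, 134348864), (65744, 33064), (2098185, 278800), (2098179, 264464), (2098177, 280848),
 (2114568, 270608), (17417, 262480), (67088, 134611008), (4587529, 33536), (328208, 134873152), (4325385, 49920),
 (66064, 134873184), (16816129, 537919552), (16816128, 538443840), (16812033, 537919680), (17416, 270672), (16812032, 538443968),
 (147465, 99072), (328720, 134357056), (131081, 361216), (2114560, 272656), (393224, 4293376), (17334400, 537919556),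
 (131080, 4309760), (134554624, 537002048), (134545424, 663616), (134284304, 139360), (134284832, 133184), (134283280, 663648),
 (134546432, 537002560), (66708, 42), (66692, 8234), (66704, 298), (134284800, 537004096), (66564, 8250),
 (671155200, 141376), (134284288, 141408), (134808096, 131138), (134808064, 393282), (135069696, 139330), (526409, 33312),
 (134545920, 537002050), (134545408, 537010242), (134807552, 139362), (134283808, 133186), (134283296, 141378), (134291456, 537004098),
 (134283264, 537004610), (590496, 322), (590368, 131394), (5268, 4194338), (16810112, 537919557), (526408, 34336),
 (17334272, 537923652), (16809984, 537923653), (2097665, 4737280), (16783361, 537927744), (16779265, 537927872), (16781313, 537927748),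
 (16777217, 537927876), (269025552, 163872), (66184, 8454), (4244, 4259874)]
theorem run2 : run 30 mvs2 lst2 (fun L => eqL L lst3) = true := by decide +kernel
end Pool.Agent.helper73.TC.Fl
end
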