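import Pool.Agent.helper73.TC.Data.FlLst0
/-! Kernel check of a part of the flip path. -/
set_option autoImplicit false
set_option maxRecDepth 100000
noncomputable section
namespace Pool.Agent.helper73.TC.Fl
def mvs3 : List (Nat × Nat) := [(269223168, 32804), (33751169, 49156), (33751041, 49220), (136000, 66564), (524962, 2368), (524960, 3392),
 (33620097, 49158), (590096, 163936), (33619969, 49222), (269222912, 36900), (1172, 4194346), (674, 67904),
 (672, 68928), (268964864, 32820), (268960768, 33076), (148, 4259882), (67104, 133440), (135488, 82948),
 (135424, 83460), (135744, 67175428), (2181136, 4202752), (135680, 67191812), (196673, 49412), (2179088, 4202760),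
 (33587331, 1064964), (2179080, 4203264), (2179072, 4205312), (33587329, 1196036), (2114056, 4727040), (33685633, 1065988),
 (33554561, 1065990), (2114048, 4729088), (2362370, 1048848), (2362368, 1057040), (2368512, 1048856), (34604035, 16404),
 (2360320, 1048858), (34603011, 49172), (2100226, 1114384), (2098178, 1114392), (2098184, 1122576), (1115144, 8466),
 (2098176, 1124624), (1115136, 10514), (33555459, 16468), (33554435, 49236), (33587265, 147476), (33587201, 1196052),
 (34603009, 148500), (33554433, 148564), (163905, 16660), (131137, 17684), (68738, 8480), (68610, 8496),
 (83024, 139520), (134228002, 131137), (134219810, 131649), (82960, 141568), (559113, 8389152), (134225954, 655425),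
 (134217762, 655937), (134750210, 393281), (134742018, 393793), (134488066, 537002049), (134225922, 537004097), (134479874, 537002561),
 (134217730, 537004609), (559112, 8390176), (526345, 8389156), (526344, 8390180), (68624, 139552), (98456, 4194592),
 (663555, 262240), (663554, 327776), (532483, 278624), (532482, 344160), (66080, 133442), (65688, 4194594),
 (268963860, 536903712), (268963856, 536969248), (525385, 33296), (269025536, 426016), (269222144, 163876), (268960000, 163892),
 (525321, 4227600), (525377, 37392), (269029376, 537165856), (67200, 10560), (269025296, 537034784), (268963840, 537165860),
 (269025280, 537296928), (68736, 8544), (525313, 4231696), (268959760, 537034788), (268959744, 537296932), (66690, 8488),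
 (525384, 33328), (66688, 8552), (66562, 8504), (154, 4195616)]
theorem run3 : run 30 mvs3 lst3 (fun L => eqL L lst4) = true := by decide +kernel
end Pool.Agent.helper73.TC.Fl
end
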