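import Pool.Agent.helper73.TC.Data.FlLst0
/-! Kernel check of a part of the flip path. -/
set_option autoImplicit false
set_option maxRecDepth 100000
noncomputable section
namespace Pool.Agent.helper73.TC.Fl
def mvs4 : List (Nat × Nat) := [(66568, 8560), (67744, 8514), (67712, 9026), (590464, 326), (688400, 100), (557328, 1124),
 (655632, 612), (524560, 1636), (784, 132196), (6293507, 524560), (2621962, 5243136), (2097674, 5308672),
 (6291459, 524568), (2621960, 5251328), (2162698, 5243152), (2163202, 5245184), (2162690, 5245200), (6291466, 1573136),
 (6293505, 540944), (3145738, 786704), (6291457, 540952), (2097162, 786705), (2097666, 5769472), (2097161, 803088),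
 (6291458, 1575184), (3145730, 788752), (2097672, 5316864), (2097154, 788753), (2621952, 5253376), (3409920, 532752),
 (2097153, 805136), (2361344, 549136), (2375680, 532760), (2359296, 1581336), (2113544, 4727056), (2097664, 5318912),
 (2113536, 4729104), (2162696, 5251344), (1116672, 4202754), (2097160, 5775632), (2621440, 5253392), (2097152, 5318928),
 (1116160, 4202770), (1114128, 4202762), (1114112, 4203274), (5245696, 532482), (66576, 139616), (66592, 141632),
 (5243648, 532490), (5245184, 532498), (66176, 8518), (5243136, 532506), (5242904, 532486), (1049352, 532610),
 (1049344, 534658), (5242888, 532998), (1049096, 532614), (648, 532742), (5243396, 536578), (5243392, 538626),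
 (5242884, 536594), (5242880, 538642), (102544, 272629792), (69776, 272629794), (4242, 272630816), (108032, 22528),
 (65682, 272630048), (65680, 272662816), (4240, 272663584), (268501378, 4456480), (268501122, 4460576), (146, 272631072),
 (268439682, 4457504), (268435586, 4457760), (268435600, 4228384), (74497, 16396), (4194448, 34088), (268501376, 4489248),
 (525340, 4194848), (268501120, 4493344), (42496, 546816), (41984, 612352), (98311, 16576), (268435840, 4490272),
 (4342273, 35072), (268435584, 4494368), (525324, 12583456), (966656, 66688), (4341761, 35088), (8913928, 4227616),
 (525320, 4227632), (98307, 16608), (13108228, 4640), (13108224, 37408), (4342272, 100608), (4752384, 4656),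
 (4341760, 100624), (4719616, 4660), (442368, 70784), (184320, 67175552)]
theorem run4 : run 30 mvs4 lst4 (fun L => eqL L lst5) = true := by decide +kernel
end Pool.Agent.helper73.TC.Fl
end
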