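import Pool.Agent.helper73.TC.Data.FlLst0
/-! Kernel check of a part of the flip path. -/
set_option autoImplicit false
set_option maxRecDepth 100000
noncomputable section
namespace Pool.Agent.helper73.TC.Fl
def mvs5 : List (Nat × Nat) := [(1329280, 525314), (280704, 525346), (167936, 67437696), (98338, 540864), (721025, 67371012), (655489, 67379204),
 (264352, 525570), (264320, 1574146), (1051008, 533506), (13144064, 8736), (8961, 540684), (8914949, 16928),
 (8914945, 49696), (526341, 17184), (8947712, 17952), (13139968, 8744), (67641473, 262156), (532609, 262412),
 (13111296, 8740), (8914944, 17956), (8946688, 21024), (67633281, 327692), (13107200, 8748), (524417, 327948),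
 (8945672, 8737), (8945665, 25120), (8945664, 29216), (8913920, 21028), (8912904, 8741), (721153, 262660),
 (590081, 262668), (8916992, 25124), (8396813, 66080), (8912896, 25125), (8396812, 4260384), (526340, 18208),
 (589833, 67371524), (589825, 67502596), (8396809, 98848), (8396805, 82464), (8413188, 70176), (8396801, 115232),
 (8396804, 4264480), (8413184, 102944), (8396808, 4293152), (265233, 16642), (8396800, 4297248), (265217, 16674),
 (264225, 540930), (264193, 540946), (264224, 541954), (2821, 147488), (2820, 148512), (2308, 148513),
 (268767234, 541065248), (268767232, 541098016), (268537856, 541065264), (268505088, 541065266), (90369, 76), (73985, 204),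
 (805634050, 4325408), (268763138, 4325664), (805371906, 4325424), (805634048, 4358176), (268500994, 4325680), (805371904, 4358192),
 (268501008, 4358432), (268500992, 4620576), (107009, 16424), (268566802, 4194337), (268566546, 541065249), (106497, 16488),
 (41025, 540712), (630848, 16432), (565312, 16440), (41024, 81976), (532737, 278540), (40961, 541224),
 (8577, 262220), (532993, 16428), (8705, 81964), (805306386, 4198433), (8449, 278604), (268435730, 4195361),
 (805437442, 4456481), (268566530, 4456737), (268435474, 4199457), (268435714, 4457505), (268436482, 4460577), (268435458, 541331489),
 (134149, 67125280), (134148, 67125792), (75328, 6400), (133124, 67125793), (75264, 22784), (26112, 530688),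
 (67408384, 4260864), (67407872, 4260992), (3596, 75497504), (2572, 75497505)]
theorem run5 : run 30 mvs5 lst5 (fun L => eqL L lst6) = true := by decide +kernel
end Pool.Agent.helper73.TC.Fl
end
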