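import Pool.Agent.helper73.TC.Data.FlLst0
import Pool.Agent.helper73.TC.Data.FlLst1
/-! Kernel check of a part of the flip path. -/
set_option autoImplicit false
set_option maxRecDepth 100000
noncomputable section
namespace Pool.Agent.helper73.TC.Fl
def mvs6 : List (Nat × Nat) := [(2565, 75513888), (2564, 75514912), (10253, 67109024), (10252, 67110048), (2061, 75497632), (8390661, 67125408),
 (10244, 67110049), (2053, 67126432), (2060, 75498656), (2052, 75515040), (8407169, 67141664), (8407168, 67142688),
 (8407041, 67142176), (8390785, 67141672), (8390657, 67142184), (8390784, 67142696), (8390664, 67143200), (8390656, 67159584),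
 (8405509, 67174432), (839680, 66592), (315392, 66720), (311296, 591008), (8405505, 67207200), (8437761, 67174560),
 (8389125, 67174440), (8404993, 67174564), (8389121, 67207208), (299136, 4260896), (8388613, 67174568), (8388609, 67207336),
 (401411, 536871008), (401410, 536936544), (8422536, 71303200), (8389768, 71303204), (8388748, 71368736), (8422408, 71303712),
 (8388744, 71401504), (8389640, 71303716), (8421384, 71369248), (8388616, 71369252), (32931, 18496), (67375680, 66562),
 (32930, 542784), (67113536, 66566), (67375616, 4260866), (71569408, 66690), (67113474, 4260868), (71598592, 66568),
 (4460672, 66594), (71565824, 66570), (71307266, 66692), (71303682, 66572), (8503808, 67112992), (8471040, 67112996),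
 (8503296, 67113120), (8438272, 67114016), (8454660, 71307296), (8405504, 67114020), (8437760, 67114144), (1049628, 67117058),
 (8454656, 71340064), (8470528, 67113124), (8486912, 71307424), (8454144, 71307428), (8404992, 67114148), (8421888, 71308320),
 (8389120, 71308324), (8421376, 71308448), (8388608, 71308452), (53376, 67175456), (36992, 71369760), (67162112, 67104),
 (71307392, 66596), (67145728, 4261408), (71307264, 67108), (71336448, 66600), (67113472, 82980), (71303680, 66604),
 (561158, 1048656), (525424, 33284), (525392, 37380), (525328, 37412), (32802, 542785), (71303204, 66696),
 (1048604, 67641346), (67112992, 83076), (71303172, 66698), (4198528, 66598), (71303200, 99464), (71335936, 328840),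
 (71303168, 328842), (565272, 4210720), (4194436, 66602), (1572876, 67117186), (4260, 82946), (567808, 4214784),
 (1048588, 67118210), (40984, 4276256), (289024, 525328), (34947, 1065024)]
theorem run6 : run 30 mvs6 lst6 (fun L => eqL L lst7) = true := by decide +kernel
end Pool.Agent.helper73.TC.Fl
end
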