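import Pool.Agent.helper73.TC.Data.FlLst1
/-! Kernel check of a part of the flip path. -/
set_option autoImplicit false
set_option maxRecDepth 100000
noncomputable section
namespace Pool.Agent.helper73.TC.Fl
def mvs7 : List (Nat × Nat) := [(32899, 1065028), (288768, 656400), (36870, 1048657), (272640, 1573904), (4256, 345090), (4761600, 20496),
 (272384, 1704976), (1313024, 525330), (565256, 4211232), (352258, 4192), (573443, 2128), (395264, 1590288),
 (335874, 536875104), (1050880, 533522), (565760, 4214816), (32775, 1065040), (1312768, 541714), (567296, 86032),
 (264192, 541970), (4759552, 20528), (565248, 86064), (557059, 6224), (561154, 1050704), (286722, 4193),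
 (270338, 536875105), (40968, 4276768), (34946, 1589312), (43024, 4280320), (40976, 4280352), (36866, 1050705),
 (1049992, 270338), (24578, 69729), (1048968, 794626), (1048960, 795650), (1574144, 270354), (1049736, 67379202),
 (32771, 1067088), (40992, 4280832), (40960, 4282880), (34818, 1589328), (1048712, 67903490), (1573120, 270362),
 (1572872, 67379218), (663557, 67371040), (1048832, 271386), (4751400, 16912), (4751392, 21008), (4751368, 16913),
 (1048584, 67380242), (196882, 4196384), (1085445, 536870992), (548869, 262184), (638978, 33554624), (548865, 262248),
 (1085441, 536873040), (532485, 67371048), (1087488, 537395280), (114690, 33554628), (98306, 34078916), (1085440, 537395284),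
 (67633165, 262688), (74250, 4194564), (4722691, 2576), (67125412, 66561), (8714, 4718852), (67633157, 393760),
 (655365, 262944), (131346, 4196385), (16548, 66563), (655617, 262690), (74504, 4210692), (528387, 2640),
 (4243496, 66064), (67633673, 134479904), (8968, 4734980), (4722689, 35344), (528385, 35408), (4755456, 18960),
 (4243488, 70160), (67633665, 134610976), (4751360, 18961), (4247552, 68112), (74248, 4210724), (67633161, 134488096),
 (67633153, 134619168), (67698824, 262150), (8712, 4735012), (74272, 4214788), (67633288, 270342), (663553, 134479968),
 (8736, 4739076), (532616, 262406), (532481, 134479976), (655363, 262752), (655361, 134480480), (134742017, 262760),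
 (67698696, 262662), (4233217, 536871440), (201982464, 262192), (524424, 327942)]
theorem run7 : run 30 mvs7 lst7 (fun L => eqL L lst8) = true := by decide +kernel
end Pool.Agent.helper73.TC.Fl
end
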