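import Pool.Agent.helper73.TC.Data.FlLst1
/-! Kernel check of a part of the flip path. -/
set_option autoImplicit false
set_option maxRecDepth 100000
noncomputable section
namespace Pool.Agent.helper73.TC.Fl
def mvs8 : List (Nat × Nat) := [(90628, 4198656), (589832, 262918), (134873600, 262256), (38913, 536871504), (25092, 4722944), (201851392, 262200),
 (134742528, 262264), (549376, 4200704), (134742088, 270384), (134742024, 67379248), (134742080, 401456), (134742016, 67510320),
 (25088, 4266240), (532552, 278576), (548928, 327728), (532544, 458800), (16780928, 532544), (16779904, 1581120),
 (17827968, 537403456), (17826432, 532548), (16779392, 537404480), (17825920, 537403460), (1051264, 532546), (1049216, 532550),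
 (554696708, 536640), (646, 532800), (642, 534848), (2688, 533824), (644, 17310016), (526625, 16898),
 (640, 17311040), (554696704, 538688), (16777348, 537403712), (16777344, 537404736), (17825796, 537152), (17825792, 539200),
 (553650176, 537664), (16779264, 538176), (16778752, 536896), (9728, 530752), (1051136, 536642), (16778240, 537407808),
 (16777728, 536900), (16777216, 537407812), (1049088, 536646), (67641354, 262164), (67641352, 262196), (67633162, 262676),
 (67633160, 262708), (67641376, 393236), (67633184, 393748), (786443, 784), (4745216, 4368), (524579, 279040),
 (524577, 279044), (12337, 536870918), (524299, 4195088), (4718595, 2832), (4233216, 536936976), (524549, 279048),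
 (4720641, 17168), (526593, 16914), (4212737, 33552), (524293, 279080), (4718593, 17176), (4210689, 33560),
 (4243464, 66320), (4243456, 68368), (4737024, 4880), (524547, 279056), (524545, 279064), (12309, 537919490),
 (786473, 16960), (786441, 16976), (524329, 49728), (524297, 49744), (12305, 537921538), (557089, 19008),
 (557064, 17008), (526369, 16962), (14337, 537919554), (557057, 19024), (524360, 279088), (526337, 16978),
 (524305, 279106), (524289, 279138), (1054721, 536870994), (1052689, 536870982), (1052673, 536879174), (16422, 70657),
 (4220928, 69904), (4212736, 70416), (4200449, 536871442), (200836, 100679680), (135300, 100680704), (33624196, 67125250),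
 (69764, 67126274), (4228, 100680706), (541071360, 66066), (6145, 536871506)]
theorem run8 : run 30 mvs8 lst8 (fun L => eqL L lst9) = true := by decide +kernel
end Pool.Agent.helper73.TC.Fl
end
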