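import Pool.Agent.helper73.TC.Data.FlLst1
/-! Kernel check of a part of the flip path. -/
set_option autoImplicit false
set_option maxRecDepth 100000
noncomputable section
namespace Pool.Agent.helper73.TC.Fl
def mvs10 : List (Nat × Nat) := [(73892, 11), (37184, 537134084), (37120, 537658372), (705536, 67712), (1603, 266256), (8356, 1035),
 (33377, 18440), (164, 66571), (33669124, 131264), (33636356, 67240128), (33652740, 655552), (181760, 67176448),
 (33619972, 67764416), (100728832, 671936), (33619968, 704704), (622596, 131520), (1539, 4460560), (181248, 67176576),
 (4195841, 299024), (1537, 299088), (622912, 131232), (9356, 67108867), (101204096, 1179712), (622848, 393376),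
 (101187712, 1179716), (101203968, 1179728), (1164, 67174403), (34095120, 1212480), (101187584, 1179732), (66692, 67125251),
 (100663424, 1196100), (34095104, 1212608), (34078848, 1212484), (67174444, 1537), (33554560, 1228868), (34078720, 1212500),
 (33587200, 1196116), (33554432, 68304980), (67174436, 17921), (37441, 537133072), (67125284, 132609), (4673, 537133074),
 (37377, 541327376), (67256352, 3585), (147492, 1793), (4609, 541327378), (147488, 3841), (67125764, 197633),
 (147972, 66817), (9350, 68157441), (1158, 68173825), (17540, 68288513), (1156, 68296705), (622672, 147488),
 (67257856, 67585), (622656, 147616), (1188868, 67108881), (589904, 409632), (74144, 74), (1180676, 67125265),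
 (74112, 78), (852064, 147458), (1065988, 67108883), (35361, 67125256), (1049604, 67117075), (73888, 75),
 (73856, 79), (98401, 16520), (82054, 67108929), (81926, 67109953), (32865, 18568), (34849, 67125384),
 (33313, 67190792), (16518, 68157505), (32801, 67190920), (1064966, 67108945), (16390, 67109969), (852256, 131202),
 (590112, 131266), (589920, 147586), (805437460, 32801), (805437456, 4227105), (272760848, 33057), (272761088, 294945),
 (272630032, 33825), (868416, 67239938), (272630800, 36897), (268566544, 33061), (268566784, 294949), (272629776, 536907809),
 (805306384, 36901), (268439568, 33829), (268435472, 34085), (852032, 67240450), (268435716, 295969), (268435712, 4490273),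
 (272630784, 299041), (272760832, 537165857), (268436480, 299045), (272629760, 537169953)]
theorem run10 : run 30 mvs10 lst10 (fun L => eqL L lst11) = true := by decide +kernel
end Pool.Agent.helper73.TC.Fl
end
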