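import Pool.Agent.helper73.TC.Data.FlLst1
/-! Kernel check of a part of the flip path. -/
set_option autoImplicit false
set_option maxRecDepth 100000
noncomputable section
namespace Pool.Agent.helper73.TC.Fl
def mvs11 : List (Nat × Nat) := [(590656, 131078), (590144, 131206), (268566528, 537165861), (606272, 67240066), (268435456, 537169957), (590592, 393222),
 (590080, 393350), (590016, 67239942), (589888, 67240454), (590336, 67502086), (589828, 67502210), (67698688, 409730),
 (589826, 409760), (537166144, 1156), (536904000, 525444), (67633348, 1179650), (67256832, 100353), (67207712, 17416),
 (67174944, 17417), (67207200, 17544), (67142176, 19464), (67141664, 19592), (67174432, 17545), (180736, 67841),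
 (67109024, 19465), (147968, 68865), (67289088, 67713), (67125280, 3593), (67159552, 67592), (67159040, 67720),
 (67158528, 67593), (67125760, 68617), (67158016, 67721), (201328176, 131080), (67125256, 68737), (67174980, 132098),
 (67633344, 1196034), (201328160, 133128), (67127296, 197761), (134221344, 131144), (67174976, 394242), (67436608, 148482),
 (134219296, 131160), (67649664, 1441794), (68681796, 131090), (67633220, 131602), (68681792, 147474), (67649600, 393234),
 (67633216, 393746), (67633664, 393238), (67649536, 1441810), (67452928, 132226), (67109444, 132114), (67109440, 394258),
 (67371072, 148498), (67387520, 1180674), (67387392, 1180690), (55312, 590336), (38928, 537461248), (55296, 591360),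
 (38912, 537462272), (54272, 590368), (53248, 590384), (134219344, 393224), (201327664, 139272), (134218800, 139336),
 (134219280, 67502088), (786530, 147968), (201327648, 141320), (201327120, 393256), (134218256, 393320), (201336864, 131081),
 (201328672, 131593), (134220320, 131145), (134218336, 393225), (134218272, 67502089), (67111456, 132105), (201336833, 537001992),
 (201336832, 537003016), (9254, 25), (134217840, 401416), (134217808, 402440), (201328641, 537002504), (134217776, 67510280),
 (786498, 147984), (201326624, 401417), (786496, 148016), (134479904, 139337), (134217744, 67511304), (1327120, 656386),
 (1327104, 656514), (201328640, 537003528), (134221312, 537002056), (201335808, 537264136), (134220288, 537002057), (201327616, 537264648),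
 (201327104, 537264137), (201326592, 537272329), (134219264, 537264200), (134218240, 537264201)]
theorem run11 : run 30 mvs11 lst11 (fun L => eqL L lst12) = true := by decide +kernel
end Pool.Agent.helper73.TC.Fl
end
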