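import Pool.Agent.helper73.TC.Data.FlLst1
/-! Kernel check of a part of the flip path. -/
set_option autoImplicit false
set_option maxRecDepth 100000
noncomputable section
namespace Pool.Agent.helper73.TC.Fl
def mvs12 : List (Nat × Nat) := [(67371568, 131084), (68943888, 139266), (67371552, 131085), (134479873, 537010248), (134217761, 141384), (134479872, 537011272),
 (68681744, 139270), (536877584, 589826), (1835024, 140290), (1310736, 67249154), (67633168, 401414), (67371056, 139276),
 (68420608, 139394), (1311744, 663682), (67117104, 132108), (1310720, 67772546), (536903936, 787588), (9222, 67108889),
 (134217760, 142408), (67108912, 132620), (134218752, 537012296), (134217728, 537012297), (67895296, 139398), (67633152, 1187974),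
 (22048, 589828), (67371540, 131082), (67110944, 140297), (67371040, 139277), (67109408, 132109), (67371028, 139274),
 (67108896, 140301), (6674, 590080), (67371536, 132106), (67109392, 132110), (67371024, 140298), (67118084, 131097),
 (536877072, 598018), (9220, 131129), (6672, 606464), (6162, 598272), (23040, 591104), (6160, 614656),
 (22016, 590084), (22528, 599296), (67112449, 196616), (7936, 589888), (7680, 537460800), (6912, 589890),
 (67110401, 196620), (6656, 537460802), (5888, 589892), (7424, 598080), (807168, 9220), (6400, 598082),
 (7168, 537468992), (282880, 9284), (6144, 537468994), (133697, 536870952), (133185, 536879144), (67109381, 458760),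
 (790784, 536880132), (67110404, 196618), (4928, 589830), (131649, 537133096), (67109380, 458762), (266496, 536880196),
 (536875264, 533572), (67109378, 459784), (537657600, 9348), (4418, 598020), (131137, 537141288), (537133312, 9412),
 (536871168, 533700), (528704, 74756), (4416, 91140), (5376, 614404), (67379206, 131208), (67371014, 196744),
 (67436548, 131209), (67371012, 139401), (67379201, 537002120), (950528, 164), (401441, 536870924), (67436546, 132232),
 (67371010, 140424), (67379200, 537003144), (603987969, 133256), (603987968, 134280), (67119104, 132233), (328197, 131336),
 (401409, 536871052), (819456, 1188), (67191812, 131137), (327685, 131464), (67126276, 131153), (67190788, 131265),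
 (67125268, 1179713), (82052, 163905), (98436, 131393), (327812, 131338)]
theorem run12 : run 30 mvs12 lst12 (fun L => eqL L lst13) = true := by decide +kernel
end Pool.Agent.helper73.TC.Fl
end
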