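import Pool.Agent.helper73.TC.Data.FlLst1
import Pool.Agent.helper73.TC.Data.FlLst2
/-! Kernel check of a part of the flip path. -/
set_option autoImplicit false
set_option maxRecDepth 100000
noncomputable section
namespace Pool.Agent.helper73.TC.Fl
def mvs13 : List (Nat × Nat) := [(98308, 147777), (67125252, 1179841), (16516, 1212481), (1064964, 163921), (49156, 131409), (16404, 132417),
 (4268072, 16404), (147460, 66881), (951296, 536936576), (4268064, 20500), (270465, 536870988), (4202536, 540692),
 (689152, 536938624), (327684, 131850), (532520, 278548), (4718632, 16916), (4202528, 544788), (4718624, 21012),
 (524328, 279060), (67437696, 163848), (4214816, 66068), (21024, 589844), (67372160, 537034760), (4210720, 66076),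
 (67437568, 164360), (603980928, 165896), (604242048, 163849), (67372032, 537035272), (603980800, 166408), (67110400, 231432),
 (604241920, 164361), (528944, 98308), (67142656, 198792), (67371520, 229385), (67371008, 229513), (328193, 164104),
 (67174912, 165897), (67109376, 537036809), (603979776, 166025), (67141632, 198793), (67110912, 197769), (528928, 99332),
 (327681, 164232), (37412, 66576), (545824, 327684), (37408, 4260880), (4640, 4260884), (787490, 16768),
 (21538, 327681), (21506, 327745), (4198436, 66578), (20482, 327777), (4227616, 66584), (4194848, 66588),
 (537664, 536936452), (4194340, 66586), (536640, 536936454), (180544, 65553), (180480, 67601), (562240, 536871428),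
 (561216, 536871444), (528464, 536871430), (528450, 536936964), (528448, 536937988), (529920, 536969220), (545792, 335876),
 (536875093, 32770), (20576, 335873), (536875092, 33282), (4181, 33794), (4180, 34306), (561664, 536936468),
 (561168, 536936484), (29696, 327748), (13376, 537198596), (21536, 327685), (21504, 327749), (13312, 537722884),
 (529440, 360452), (20544, 335877), (529408, 537231364), (20481, 335908), (282624, 598052), (561152, 537198628),
 (790528, 536944676), (20512, 598036), (528416, 536944660), (548896, 327700), (536945668, 786496), (67120, 32780),
 (274500, 536936449), (274436, 536936481), (274432, 536936545), (12356, 536936451), (12352, 536936483), (4192, 537198595),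
 (12289, 536936486), (12320, 536936470), (536883200, 589846), (537399296, 66070)]
theorem run13 : run 30 mvs13 lst13 (fun L => eqL L lst14) = true := by decide +kernel
end Pool.Agent.helper73.TC.Fl
end
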