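import Pool.Agent.helper73.TC.Data.FlLst2
/-! Kernel check of a part of the flip path. -/
set_option autoImplicit false
set_option maxRecDepth 100000
noncomputable section
namespace Pool.Agent.helper73.TC.Fl
def mvs14 : List (Nat × Nat) := [(536875540, 98306), (427520, 536936456), (590384, 49156), (70212, 536871938), (427008, 536936584), (164992, 536938504),
 (70208, 537134082), (4676, 536904706), (536875524, 99330), (36934, 536871937), (4166, 536937473), (164864, 536939016),
 (36932, 537134081), (4164, 537199617), (69696, 537134083), (536942080, 294914), (536876544, 294978), (536875584, 294930),
 (4672, 295954), (372, 164864), (308, 164865), (267792, 4227074), (5200, 294915), (4176, 537165827),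
 (4160, 537166851), (266768, 541097986), (267280, 4227075), (276, 164929), (266256, 541097987), (537133136, 33283),
 (537133072, 4227587), (267776, 4292610), (266752, 541163522), (536875520, 4292626), (4726794, 276), (4726792, 16660),
 (4726786, 4372), (4202506, 65812), (4202498, 69908), (4202504, 82196), (4718602, 788), (4268032, 20756),
 (4718594, 4884), (4202496, 545044), (4722688, 17172), (4718592, 17180), (12290, 590100), (4214784, 66324),
 (4210688, 66332), (12288, 606484), (20480, 590612), (5141, 32802), (528384, 66326), (4352, 4260374),
 (4194564, 66074), (524810, 262420), (524298, 270612), (4523520, 32778), (532488, 278804), (4117, 536903714),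
 (524296, 279316), (536875025, 4227106), (4198404, 67090), (4457984, 32794), (541069313, 294946), (4456977, 33026),
 (4612, 99346), (5140, 98338), (4608, 4293650), (4194308, 67098), (4116, 536969250), (4113, 4228130),
 (4198401, 295970), (536875024, 4292642), (4112, 4293666), (541069312, 360482), (4198400, 361506), (4456465, 34050),
 (4195345, 33058), (4195329, 295202), (786992, 147460), (4195840, 98330), (4260880, 32810), (4457488, 33034),
 (66608, 32782), (4456464, 33546), (66576, 33294), (4195344, 33066), (4456968, 98562), (4194824, 98578),
 (4457736, 32898), (4456712, 98434), (4260624, 34818), (4194328, 98594), (4195088, 34819), (4456456, 99458),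
 (4260104, 32930), (155968, 66576), (4194568, 33954), (4194312, 99490)]
theorem run14 : run 30 mvs14 lst14 (fun L => eqL L lst15) = true := by decide +kernel
end Pool.Agent.helper73.TC.Fl
end
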