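import Pool.Agent.helper73.TC.Data.FlLst2
/-! Kernel check of a part of the flip path. -/
set_option autoImplicit false
set_option maxRecDepth 100000
noncomputable section
namespace Pool.Agent.helper73.TC.Fl
def mvs15 : List (Nat × Nat) := [(155904, 68624), (4195584, 295074), (149760, 66577), (536873554, 524289), (157696, 590864), (4195328, 360610),
 (4194833, 536905730), (4194432, 360738), (536880132, 786624), (26624, 591120), (679936, 328720), (787216, 16390),
 (155648, 328784), (4194832, 536971266), (364548, 536871968), (3122, 8449), (9348, 786752), (147712, 66641),
 (364544, 536871970), (786960, 147462), (102400, 536871974), (36870, 536871969), (36868, 537134113), (36864, 537134115),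
 (266242, 536937505), (266240, 536937509), (4096, 536937511), (786594, 147712), (229889, 2312), (786466, 148224),
 (98817, 18696), (786946, 147716), (786944, 147748), (598052, 537133072), (532516, 537264144), (532512, 537329680),
 (536873552, 557057), (536871508, 557058), (536871504, 557059), (536871444, 622594), (536936976, 559106), (536871440, 559107),
 (2498, 532512), (2496, 533536), (2432, 533538), (4391202, 264192), (536903762, 524293), (4325666, 264193),
 (4325635, 264704), (35408, 540673), (131331, 264736), (2640, 540675), (18514, 1572865), (2130, 538443777),
 (537921554, 532481), (18962, 524545), (18512, 1605633), (536870994, 1572869), (537919506, 532485), (2128, 538476545),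
 (536870992, 1605637), (537929744, 655361), (1189904, 525313), (537921552, 688129), (537919494, 532545), (1083408, 671745),
 (537919490, 534593), (1190912, 524417), (537927696, 655365), (537919504, 688133), (4325634, 330240), (1181712, 541697),
 (1058832, 525315), (1050640, 541699), (1097744, 655425), (1081360, 655429), (1059840, 524419), (18450, 525569),
 (3090, 532737), (131619, 537135104), (131587, 541329408), (19714, 524321), (3330, 532513), (18690, 524833),
 (4325890, 537200640), (131075, 541329440), (205088, 2128), (205056, 3152), (1058818, 524481), (541196801, 296960),
 (4325378, 537200672), (1572948, 131075), (1051650, 540801), (1050626, 540865), (1572884, 139267), (1056834, 524421),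
 (1051648, 671873), (1198080, 557185), (1056788, 67239939), (1056836, 537395329)]
theorem run15 : run 30 mvs15 lst15 (fun L => eqL L lst16) = true := by decide +kernel
end Pool.Agent.helper73.TC.Fl
end
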