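import Pool.Agent.helper73.TC.Data.FlLst2
/-! Kernel check of a part of the flip path. -/
set_option autoImplicit false
set_option maxRecDepth 100000
noncomputable section
namespace Pool.Agent.helper73.TC.Fl
def mvs16 : List (Nat × Nat) := [(1048596, 67240003), (68165636, 131203), (541065729, 296962), (67117076, 131083), (67117060, 131211), (68165760, 132099),
 (150544, 589825), (1056832, 537397377), (1058816, 537526401), (541065730, 362496), (541065728, 493568), (537927680, 655493),
 (68158592, 147459), (68157444, 131267), (917792, 16516), (68165632, 132115), (1067008, 557249), (68157568, 147523),
 (1056784, 656387), (19458, 524449), (1097728, 655553), (68157504, 147475), (67117184, 132107), (67117056, 132123),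
 (1181696, 537428097), (1050624, 537428161), (18562, 524385), (18434, 524897), (1048656, 671747), (524881, 49154),
 (917760, 16518), (538050560, 557189), (68157440, 148499), (150528, 589953), (1057792, 655491), (1048592, 672771),
 (1049600, 671875), (1064960, 655555), (537919488, 557253), (1056768, 655495), (1048578, 655557), (1048576, 688325),
 (4194819, 297216), (3074, 532641), (67108888, 132103), (4194817, 428288), (67125264, 132163), (67109900, 196611),
 (4194818, 362752), (786720, 17540), (67108880, 132167), (4194816, 493824), (67109896, 196739), (2178, 532577),
 (537002530, 264256), (67108872, 196743), (67108996, 196675), (67108868, 197699), (67109952, 212995), (67108928, 213123),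
 (67108864, 214147), (36448, 524296), (537002498, 329792), (19472, 590081), (18720, 525825), (35424, 540680),
 (537001986, 329824), (536873059, 8704), (34088, 146), (19712, 590337), (164609, 264200), (164353, 537135112),
 (51776, 524297), (164608, 329736), (164352, 537200648), (19008, 524329), (536969736, 265216), (536936968, 396288),
 (35393, 537395208), (35392, 537396232), (18529, 524424), (18497, 557192), (537068032, 265280), (537100296, 264320),
 (18496, 557224), (34912, 525448), (537068608, 272384), (34976, 541704), (34848, 542216), (536969224, 265344),
 (18592, 525321), (18464, 525833), (536936456, 396416), (537067584, 272416), (537199168, 3074), (35904, 537395336),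
 (328256, 134146), (50720, 589832), (50688, 591880), (19968, 589833)]
theorem run16 : run 30 mvs16 lst16 (fun L => eqL L lst17) = true := by decide +kernel
end Pool.Agent.helper73.TC.Fl
end
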