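import Pool.Agent.helper73.TC.Data.FlLst2
/-! Kernel check of a part of the flip path. -/
set_option autoImplicit false
set_option maxRecDepth 100000
noncomputable section
namespace Pool.Agent.helper73.TC.Fl
def mvs17 : List (Nat × Nat) := [(34880, 537395337), (19457, 589960), (541261840, 34848), (541261824, 296992), (541458432, 34849), (540784, 164352),
 (541327361, 34850), (541196288, 34865), (4456451, 35104), (19456, 622728), (541065217, 34866), (731136, 536871952),
 (729088, 537134096), (541065232, 100386), (541065216, 362530), (4194307, 35120), (17928, 589857), (4194322, 100640),
 (2147, 532992), (4194306, 362784), (536874176, 532488), (4521984, 166176), (4259840, 166192), (4456448, 166177),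
 (50176, 589992), (4194304, 166193), (460288, 2058), (3264, 532520), (2272, 532489), (2208, 533513),
 (17416, 589985), (2115, 537403904), (537199104, 35842), (2240, 537403401), (459264, 2314), (524400, 164356),
 (526433, 8712), (329216, 34826), (116, 165376), (328192, 35082), (524848, 180228), (526401, 536879624),
 (34058, 262288), (2113, 536879656), (34056, 262352), (524884, 163842), (524880, 180226), (540752, 163843),
 (263434, 8336), (263432, 8400), (1290, 8368), (1288, 8432), (491528, 2432), (526440, 9728),
 (526408, 536880640), (526376, 9729), (401444, 536870936), (139300, 536870937), (360712, 2178), (527456, 8960),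
 (526432, 8962), (526370, 8961), (360456, 3202), (328712, 133250), (536873001, 139776), (2089, 140800),
 (9258, 145), (197125, 1288), (9227, 131216), (9226, 393360), (524368, 163847), (327688, 133506),
 (85, 164866), (3112, 139840), (2088, 537010752), (3168, 140032), (197121, 3336), (2120, 537011712),
 (84, 165378), (655888, 49158), (77056, 524368), (139275, 148), (491776, 2208), (459008, 2210),
 (327936, 34978), (24645, 327688), (139271, 524432), (24581, 327720), (536871017, 270848), (536871016, 401920),
 (533572, 327936), (533508, 344320), (139274, 262292), (9220, 344384), (24644, 327944), (537002056, 271872),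
 (16460, 327937), (16452, 328961), (24612, 327704), (270346, 404)]
theorem run17 : run 30 mvs17 lst17 (fun L => eqL L lst18) = true := by decide +kernel
end Pool.Agent.helper73.TC.Fl
end
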