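import Pool.Agent.helper73.TC.Data.FlLst2
/-! Kernel check of a part of the flip path. -/
set_option autoImplicit false
set_option maxRecDepth 100000
noncomputable section
namespace Pool.Agent.helper73.TC.Fl
def mvs18 : List (Nat × Nat) := [(139267, 525456), (549888, 327952), (139270, 786576), (139266, 787600), (537002080, 272896), (537002048, 273920),
 (271362, 524688), (270338, 524692), (548864, 327956), (25600, 328016), (24580, 327960), (537075744, 264208),
 (24832, 327768), (537075712, 265232), (205824, 264272), (65761, 16394), (204800, 264304), (338944, 536870992),
 (16653, 328192), (336136, 84), (16397, 328224), (75008, 786512), (270600, 212), (16428, 328208),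
 (16396, 328464), (99074, 2072), (336128, 524372), (139277, 536871056), (76800, 537395280), (74752, 537657424),
 (8417, 524298), (271616, 524496), (270592, 524500), (139276, 537133200), (401412, 537395344), (139268, 537395345),
 (196898, 2240), (925696, 536872080), (795648, 536871120), (794752, 536870996), (794624, 536936532), (536905857, 655368),
 (225, 540682), (401536, 536871960), (271488, 536871000), (99072, 18456), (270464, 536871004), (787714, 16528),
 (787458, 147600), (786690, 16532), (786434, 147604), (656386, 16529), (537789440, 65680), (918528, 82064),
 (536936545, 270338), (672768, 65681), (536936544, 272386), (536873056, 270850), (536871008, 270851), (537330688, 2192),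
 (536871458, 272385), (327777, 24578), (537068544, 526480), (721920, 2193), (720897, 18576), (559233, 147464),
 (65633, 24586), (536879297, 524300), (262243, 25088), (8385, 524302), (262241, 25096), (197904, 2113),
 (8390, 524552), (8386, 524584), (278632, 8720), (262248, 139792), (393288, 9744), (131144, 9776),
 (271432, 536871440), (271368, 537002512), (401416, 536871472), (34945, 213000), (114817, 131144), (98433, 131400),
 (98578, 2088), (98562, 2216), (49281, 655432), (65921, 131148), (197024, 34880), (196896, 34896),
 (65924, 131146), (65668, 131147), (65729, 147466), (16577, 655370), (196880, 34881), (229760, 2120),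
 (98688, 2152), (98592, 2136), (196992, 2122), (65920, 2154)]
theorem run18 : run 30 mvs18 lst18 (fun L => eqL L lst19) = true := by decide +kernel
end Pool.Agent.helper73.TC.Fl
end
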