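import Pool.Agent.helper73.TC.Data.FlLst2
/-! Kernel check of a part of the flip path. -/
set_option autoImplicit false
set_option maxRecDepth 100000
noncomputable section
namespace Pool.Agent.helper73.TC.Fl
def mvs19 : List (Nat × Nat) := [(229632, 2121), (98584, 18496), (195, 655372), (98576, 18497), (98560, 18505), (98313, 149568),
 (98305, 149584), (229384, 18624), (198, 655624), (229456, 18464), (537134116, 98305), (537134112, 98307),
 (536871968, 98311), (98384, 18472), (537691136, 65668), (820224, 65700), (98376, 18592), (98368, 149664),
 (803856, 65920), (787488, 82052), (803840, 65924), (536872454, 98368), (536872452, 622656), (803072, 65684),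
 (536871428, 622658), (536871942, 98369), (536871939, 360512), (536871937, 360516), (617, 548864), (278569, 74240),
 (278568, 74256), (141832, 536871937), (141320, 536872065), (10376, 537396225), (10368, 537527297), (663680, 536871953),
 (663552, 536874001), (139392, 536871961), (10248, 537396737), (656384, 536873105), (105, 548866), (97, 549378),
 (196808, 18434), (65736, 18466), (65728, 149538), (2912, 139266), (2656, 401410), (537166852, 65728),
 (537134084, 590016), (787460, 65984), (536871940, 622784), (787712, 65744), (786688, 65748), (787456, 536936656),
 (786496, 536936596), (65890, 10248), (65888, 10264), (65824, 10266), (2595, 270592), (2594, 401664),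
 (17925, 65824), (17924, 590112), (17920, 590113), (541700, 65952), (17540, 327968), (17412, 327969),
 (139785, 536871968), (139777, 536874016), (139273, 536871984), (139265, 536874032), (139272, 536872496), (196720, 280576),
 (196704, 280578), (196642, 280704), (327792, 26624), (868, 656384), (65648, 26632), (536879300, 524312),
 (356, 689152), (100, 689664), (536879296, 525336), (8388, 524568), (536880256, 524313), (525508, 98560),
 (525444, 98592), (1220, 360704), (1156, 360736), (263236, 98561), (263172, 98593), (393272, 536871428),
 (65640, 26626), (65632, 288770), (393256, 536871429), (131625, 536871940), (131113, 536871956), (131112, 536872468),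
 (537002009, 1156), (524331, 24704), (540866, 131112), (540864, 163880)]
theorem run19 : run 30 mvs19 lst19 (fun L => eqL L lst20) = true := by decide +kernel
end Pool.Agent.helper73.TC.Fl
end
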