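import Pool.Agent.helper73.TC.Data.FlLst2
import Pool.Agent.helper73.TC.Data.FlLst3
/-! Kernel check of a part of the flip path. -/
set_option autoImplicit false
set_option maxRecDepth 100000
noncomputable section
namespace Pool.Agent.helper73.TC.Fl
def mvs20 : List (Nat × Nat) := [(16578, 133160), (16576, 165928), (262768, 155648), (35008, 131368), (2240, 131370), (262256, 157696),
 (194, 655656), (264288, 155650), (262240, 156162), (131296, 557320), (131097, 1158), (1888, 663552),
 (262691, 24832), (547, 549120), (864, 663554), (131226, 263172), (327721, 8708), (131224, 537134084),
 (131098, 263684), (262185, 536879620), (131096, 537134596), (610, 679936), (262690, 155904), (327720, 8724),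
 (540770, 139272), (262184, 536879636), (546, 680192), (280642, 204800), (35168, 131096), (34912, 147480),
 (524386, 139528), (16482, 141320), (18498, 204808), (98, 141576), (2122, 205056), (2400, 139288),
 (2144, 155672), (524618, 139268), (330, 204804), (133506, 262184), (65614, 139265), (328976, 16576),
 (78, 663553), (98332, 546), (65610, 155649), (98316, 1570), (32780, 1586), (74, 679937),
 (133504, 294952), (2432, 294954), (393601, 32780), (262529, 32844), (385, 163916), (393345, 536903692),
 (131265, 557068), (131264, 557324), (262273, 536903756), (193, 537427980), (540683, 139392), (32897, 537526284),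
 (524299, 139396), (540682, 139424), (524302, 139648), (524298, 139680), (655394, 24960), (607264, 385),
 (541728, 387), (607232, 401), (541696, 403), (525346, 8577), (524322, 24961), (525314, 8593),
 (9218, 433), (537461776, 2240), (536937488, 264384), (17682, 262273), (557077, 537001986), (536939072, 525314),
 (560256, 536936456), (536937024, 558082), (536936960, 560130), (590928, 2432), (590864, 2433), (98880, 525318),
 (17666, 262305), (33348, 656386), (589841, 18816), (17442, 327809), (17440, 328065), (328738, 32897),
 (328736, 33153), (263200, 33155), (263426, 32913), (1282, 32945), (16675, 270464), (16674, 401536),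
 (197132, 1282), (197124, 1346), (197184, 3330), (133952, 9218)]
theorem run20 : run 30 mvs20 lst20 (fun L => eqL L lst21) = true := by decide +kernel
end Pool.Agent.helper73.TC.Fl
end
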