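import Pool.Agent.helper73.TC.Data.FlLst3
/-! Kernel check of a part of the flip path. -/
set_option autoImplicit false
set_option maxRecDepth 100000
noncomputable section
namespace Pool.Agent.helper73.TC.Fl
def mvs22 : List (Nat × Nat) := [(16418, 337928), (26626, 458760), (18434, 458888), (16394, 467072), (34946, 328712), (2178, 459784),
 (272385, 536871458), (35968, 537198600), (548930, 131585), (548960, 131592), (24672, 131608), (16496, 164360),
 (16480, 688648), (525073, 18434), (524817, 51202), (755728, 536887296), (557069, 537002048), (557061, 537002050),
 (524301, 537010240), (524293, 537010242), (663712, 16648), (475144, 10368), (139424, 278792), (655528, 49408),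
 (231440, 536887328), (231456, 537149440), (131240, 311552), (198688, 537149456), (229392, 537411616), (196656, 537673728),
 (983056, 536887424), (720912, 536889472), (537067552, 835584), (196640, 835712), (983040, 536920192), (720896, 536922240),
 (852016, 536887300), (786480, 537018372), (589872, 536920068), (851984, 536887428), (524336, 537051140), (537526304, 311300),
 (537395232, 376836), (786448, 537018500), (852000, 49284), (851968, 536920196), (786464, 180356), (786432, 537051268),
 (295057, 322), (262289, 16706), (9737, 537395232), (540738, 164353), (82720, 524293), (624768, 536887304),
 (229376, 537151616), (9729, 537397280), (537067520, 280720), (100480, 537149448), (278545, 834), (49240, 133632),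
 (262161, 33602), (9664, 524336), (297088, 537018376), (34944, 537542664), (196624, 280768), (66336, 525317),
 (540945, 2178), (393376, 49412), (9408, 524344), (131232, 573700), (8384, 524600), (262308, 114944),
 (9352, 524337), (9344, 524593), (212995, 8384), (548928, 131593), (540736, 164361), (164, 639232),
 (9225, 537395248), (688512, 16396), (212994, 270528), (81922, 270529), (536880129, 526384), (688256, 536887308),
 (537034880, 278540), (475136, 10432), (9217, 526640), (163968, 278796), (49224, 133633), (16785, 2114),
 (16657, 2626), (536881169, 524322), (536881153, 524834), (785, 34882), (529, 51266), (10257, 524578),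
 (10241, 525090), (8465, 524450), (657544, 536887297), (657536, 536887313)]
theorem run22 : run 30 mvs22 lst22 (fun L => eqL L lst23) = true := by decide +kernel
end Pool.Agent.helper73.TC.Fl
end
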