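import Pool.Agent.helper73.TC.Data.FlLst3
/-! Kernel check of a part of the flip path. -/
set_option autoImplicit false
set_option maxRecDepth 100000
noncomputable section
namespace Pool.Agent.helper73.TC.Fl
def mvs23 : List (Nat × Nat) := [(559632, 81922), (557584, 81926), (536903701, 131106), (524820, 82178), (524816, 84226), (32789, 132130),
 (329872, 536887360), (657424, 536920065), (657408, 536920073), (327824, 536887364), (688148, 536887298), (65940, 540736),
 (65684, 537411648), (688144, 536887299), (532547, 537002496), (65936, 542784), (65680, 537413696), (655380, 536887426),
 (655376, 536887427), (524355, 537035264), (557121, 537002504), (524353, 537010696), (557076, 536952834), (622608, 536889346),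
 (557072, 536889347), (540689, 536873090), (525585, 2208), (688137, 536887808), (557065, 536889856), (524561, 2210),
 (688129, 536887810), (557057, 536889858), (49161, 537004544), (213184, 10241), (213056, 10249), (212992, 10377),
 (655746, 24580), (655744, 24588), (525337, 536871072), (525329, 536873120), (536874001, 131232), (524313, 536879264),
 (526353, 536871074), (524305, 536879266), (9568, 655376), (8544, 655384), (655500, 536895488), (655496, 536895489),
 (655369, 536896000), (33834, 65680), (655492, 536895490), (655488, 536895491), (536879123, 164), (655361, 536896002),
 (8211, 172), (8209, 536871084), (537034772, 16418), (536903700, 81954), (536969232, 18466), (27, 1188),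
 (25, 536872100), (536871953, 131236), (1045, 131234), (21, 537002146), (9552, 657408), (9488, 657440),
 (147842, 270340), (147840, 270348), (131456, 270350), (84352, 524353), (67968, 525377), (307, 34944),
 (275, 35008), (66852, 557057), (66848, 557185), (132448, 557072), (66944, 557121), (460864, 9344),
 (99584, 524357), (458816, 9346), (1376, 557200), (480, 557080), (224, 558104), (198848, 9217),
 (352, 688152), (163944, 524816), (32872, 525840), (1128, 533008), (104, 664080), (8288, 656912),
 (96, 689680), (3121, 131456), (9256, 537395728), (196800, 9219), (3089, 131520), (9224, 537395792),
 (196674, 9221), (1075, 163968), (1073, 164224), (1043, 164032)]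
theorem run23 : run 30 mvs23 lst23 (fun L => eqL L lst24) = true := by decide +kernel
end Pool.Agent.helper73.TC.Fl
end
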