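import Pool.Agent.helper73.TC.Data.FlLst3
/-! Kernel check of a part of the flip path. -/
set_option autoImplicit false
set_option maxRecDepth 100000
noncomputable section
namespace Pool.Agent.helper73.TC.Fl
def mvs24 : List (Nat × Nat) := [(1041, 164288), (305, 166016), (273, 166080), (395522, 9224), (395266, 74760), (133122, 75016),
 (196866, 9228), (131338, 271364), (32945, 133122), (32817, 537004034), (49, 537004162), (460800, 9352),
 (536871057, 149506), (32913, 133186), (458752, 9354), (196614, 9225), (536870929, 182274), (32785, 149570),
 (536903696, 149538), (17, 149698), (196610, 9353), (196736, 11273), (536920065, 133634), (49153, 133698),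
 (49216, 133650), (393226, 9348), (131082, 9349), (525896, 536903696), (1608, 537165840), (263240, 536903824),
 (1096, 537428112), (34084, 655361), (34128, 655488), (34064, 655520), (34052, 655425), (1360, 657536),
 (1296, 657568), (34080, 655489), (34048, 655553), (590116, 49153), (1440, 657409), (1408, 657473),
 (590112, 49281), (65952, 311297), (65824, 311301), (205060, 1096), (205056, 3144), (204804, 1097),
 (196612, 1353), (204800, 3145), (196608, 3401), (328068, 49216), (65924, 573504), (327940, 49217),
 (327936, 49345), (327812, 536920128), (65668, 537444416), (65920, 573505), (98560, 540741), (270350, 1408),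
 (9227, 65668), (1035, 65700), (1066, 65684), (11, 73892), (46, 73872), (11274, 327936),
 (10266, 65824), (10250, 327968), (271370, 65920), (270346, 65952), (9226, 65924), (8206, 65936),
 (8202, 65968), (262286, 1296), (142, 66832), (65550, 1808), (14, 263952), (186, 98560),
 (58, 100608), (2074, 99072), (170, 360704), (42, 362752), (262682, 34048), (262666, 36096),
 (538, 99584), (522, 101632), (262170, 34176), (26, 99712), (2058, 361728), (10, 361856)]
theorem run24 : run 30 mvs24 lst24 (fun L => eqL L lst25) = true := by decide +kernel
end Pool.Agent.helper73.TC.Fl
end
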