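import Pool.Agent.helper73.TC.Data.CeAll
/-! Kernel checks of four cells. -/
set_option autoImplicit false
namespace Pool.Agent.helper73.TC.Ce
theorem chkCell_40 : chkCell tab cell40 40 = true := by decide +kernel
theorem chkNei_40 : chkNei tab cell40 [cell8, cell24, cell56, cell32, cell36, cell44, cell41, cell42, cell43] cell40 cell34 2 1 = true := by decide +kernel
theorem chkCell_41 : chkCell tab cell41 41 = true := by decide +kernel
theorem chkNei_41 : chkNei tab cell41 [cell9, cell25, cell57, cell33, cell37, cell45, cell40, cell42, cell43] cell41 cell38 2 1 = true := by decide +kernel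
theorem chkCell_42 : chkCell tab cell42 42 = true := by decide +kernel
theorem chkNei_42 : chkNei tab cell42 [cell10, cell26, cell58, cell34, cell38, cell46, cell40, cell41, cell43] cell42 cell42 2 1 = true := by decide +kernel
theorem chkCell_43 : chkCell tab cell43 43 = true := by decide +kernel
theorem chkNei_43 : chkNei tab cell43 [cell11, cell27, cell59, cell35, cell39, cell47, cell40, cell41, cell42] cell43 cell46 2 1 = true := by decide +kernel
end Pool.Agent.helper73.TC.Ce
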