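import Pool.Agent.helper73.TC.Data.FlLst1
/-! Kernel check of a part of the flip path. -/
set_option autoImplicit false
set_option maxRecDepth 100000
noncomputable section
namespace Pool.Agent.helper73.TC.Fl
def mvs9 : List (Nat × Nat) := [(70786, 67387392), (69762, 100941824), (4226, 100942848), (70784, 67518464), (5248, 101072896), (49286, 34603072),
 (4224, 101138432), (32902, 35127360), (40000, 537395712), (49158, 34603088), (38976, 537395728), (32774, 35127376),
 (32786, 35143744), (1291, 4456464), (32770, 35143872), (267, 4456976), (11, 4458000), (34144262, 67109056),
 (33886210, 67125312), (204866, 536872992), (33624066, 67125316), (139330, 536872993), (33882242, 67649536), (33820674, 67126336),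
 (1353, 294928), (33619974, 67125440), (33821696, 67256384), (1097, 295440), (33820672, 67321920), (33624064, 67256388),
 (33882240, 67780608), (33620098, 67649600), (33619970, 67911744), (397312, 67191872), (33558530, 67126340), (1289, 4489232),
 (33558528, 67257412), (135168, 67191876), (139267, 536873008), (139266, 536938544), (67112964, 83010), (67112960, 345154),
 (1033, 4489744), (131091, 541067296), (131090, 541132832), (20486, 66625), (33882112, 67780672), (4194313, 295696),
 (33948800, 68173824), (33947776, 68698112), (33817728, 68173826), (1060884, 537395202), (33816704, 68698114), (33686596, 67125264),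
 (33686656, 68173828), (1052692, 537395266), (1052752, 537397250), (1052688, 537405442), (6224, 537395714), (33555584, 68173830),
 (33555524, 67125266), (1052676, 537403458), (1052672, 537405506), (33686532, 68173840), (34735104, 67387408), (33555460, 68173842),
 (33686528, 67387472), (34604032, 67387410), (33555456, 67387474), (33816642, 67649552), (33816578, 68698128), (33816640, 67780624),
 (33816576, 68829200), (4268548, 4354), (4203012, 528642), (4268544, 6402), (4270080, 4370), (4203008, 530690),
 (532996, 4418), (532992, 6466), (4204544, 528658), (4720640, 4882), (4200448, 66322), (601, 311296),
 (89, 311552), (25, 312064), (8708, 69954), (8704, 72002), (67117220, 1033), (67117216, 3081),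
 (67109028, 66569), (33570950, 68157504), (33570946, 68681792), (33554562, 68681796), (34095106, 68157520), (33570818, 68157524),
 (133187, 536871456), (131139, 537133600), (33554434, 68681812), (561472, 536871940)]
theorem run9 : run 30 mvs9 lst9 (fun L => eqL L lst10) = true := by decide +kernel
end Pool.Agent.helper73.TC.Fl
end
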