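import Pool.Agent.helper73.TC.Data.FlLst3
/-! Kernel check of a part of the flip path. -/
set_option autoImplicit false
set_option maxRecDepth 100000
noncomputable section
namespace Pool.Agent.helper73.TC.Fl
def mvs21 : List (Nat × Nat) := [(131652, 525570), (580, 591106), (66112, 527618), (2880, 533506), (197120, 3338), (832, 664578),
 (526912, 536880130), (526658, 74752), (526402, 536945664), (133696, 271362), (2624, 537142274), (536873026, 336896),
 (2370, 205824), (2114, 467968), (361728, 193), (296192, 209), (537012240, 263200), (263440, 16577),
 (537010192, 263712), (537010176, 265760), (263424, 82113), (17664, 65745), (66832, 2241), (537002512, 263204),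
 (68625, 131264), (68624, 393408), (328720, 147648), (66576, 147649), (311320, 832), (590146, 9220),
 (65809, 18624), (65553, 149696), (311312, 833), (311296, 841), (524610, 140292), (410640, 194),
 (410624, 65730), (148496, 195), (148480, 65731), (82944, 262339), (17408, 262355), (263185, 32962),
 (263169, 98498), (322, 205828), (141856, 263424), (49425, 2624), (49409, 2632), (49408, 2648),
 (141824, 263426), (328080, 16452), (133634, 263432), (558, 66576), (554, 99344), (546, 99348),
 (131594, 263428), (18697, 66112), (16649, 328256), (278792, 66128), (327945, 580), (278537, 74304),
 (16648, 68176), (278536, 74320), (198816, 311296), (327944, 596), (327952, 16964), (524429, 537010176),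
 (328448, 16453), (327689, 8772), (327688, 8788), (270345, 536871492), (270373, 536936960), (270344, 536871508),
 (131852, 263169), (131596, 537134081), (270372, 536936976), (133282, 278536), (278563, 73856), (270356, 536937024),
 (270340, 536937025), (16419, 73864), (133280, 311304), (537002500, 263201), (537002528, 265217), (537002496, 265225),
 (131592, 265473), (149538, 270344), (16395, 204928), (133632, 263457), (131585, 263460), (272641, 546),
 (532501, 536871042), (524309, 537002114), (34978, 327688), (133154, 270600), (131362, 270472), (34976, 344072),
 (2208, 344074), (131106, 286856), (524421, 537010178), (16546, 335880)]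
theorem run21 : run 30 mvs21 lst21 (fun L => eqL L lst22) = true := by decide +kernel
end Pool.Agent.helper73.TC.Fl
end
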