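import Pool.Agent.helper73.TC.Data.PaTab
import Pool.Agent.helper73.TC.Data.KDat
/-! Nonfaces of the complex on 20 vertices (data) and indexing of the tables. -/
set_option autoImplicit false
set_option maxRecDepth 100000
noncomputable section
namespace Pool.Agent.helper73.TC.Pa
/-- the antipodal pairs and the missing tetrahedra -/
def NK : List Nat := 3 :: 12 :: 48 :: 192 :: 768 :: 3072 :: 12288 :: 49152 :: 196608 :: 786432 :: bad
/-- nonfaces of the link of the vertex `2 * i` -/
def NV : Nat → List Nat := getL [nv0, nv2, nv4, nv6, nv8, nv10, nv12, nv14, nv16, nv18]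
/-- nonfaces of the links of the edges at the vertex `2 * i` -/
def NE (i : Nat) : List (List Nat) :=
  match i with
  | 0 => ne0
  | 1 => ne2
  | 2 => ne4
  | 3 => ne6
  | 4 => ne8
  | 5 => ne10
  | 6 => ne12
  | 7 => ne14
  | 8 => ne16
  | 9 => ne18
  | _ => []
end Pool.Agent.helper73.TC.Pa
end
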